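import Mathlib

/-!
# Almost invariant Lipschitz functions far from all invariant ones
-/

open scoped NNReal ENNReal Topology
open Filter

namespace Pool.Agent.Results.MP_35e3b8_an.RotationNumber

/-- The Lipschitz constant `L(f) = sup |f x - f y| / d(x,y)`, in `[0,∞]`. -/
noncomputable def L {M : Type} [MetricSpace M] (f : M → ℝ) : ℝ≥0∞ :=
  ⨆ (x : M) (y : M), edist (f x) (f y) / edist x y

/-- `(gf)(x) = f(g⁻¹ x) - f(g⁻¹ o)`. -/
def act {M : Type} {G : Type} [Group G] [MulAction G M] (o : M) (g : G) (f : M → ℝ) : M → ℝ :=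
  fun x => f (g⁻¹ • x) - f (g⁻¹ • o)

/-- The statement of the question with `ε` in place of `δ/10`: for every pointed metric space
`(M, o)`, every group `G` acting on `M` by isometries, and every `ε`-invariant `f ∈ Lip_0(M)` with
`L(f) = 1` there is an invariant `f' ∈ Lip_0(M)` with `‖f - f'‖ ≤ δ`. -/
def Approximation (δ ε : ℝ≥0) : Prop :=
  ∀ (M : Type) [MetricSpace M] (o : M) (G : Type) [Group G] [MulAction G M],
    (∀ g : G, Isometry (fun x : M => g • x)) →
    ∀ f : M → ℝ, f o = 0 → L f = 1 → (∀ g : G, L (act o g f - f) ≤ ε) →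
      ∃ f' : M → ℝ, f' o = 0 ∧ L f' < ⊤ ∧ (∀ g : G, act o g f' = f') ∧ L (f - f') ≤ δ

section LipConst

variable {M : Type} [MetricSpace M]

theorem L_le {f : M → ℝ} {c : ℝ} (hc : 0 ≤ c) (h : ∀ x y, |f x - f y| ≤ c * dist x y) :
    L f ≤ ENNReal.ofReal c := by
  refine iSup₂_le fun x y => ?_
  refine ENNReal.div_le_of_le_mul ?_
  rw [edist_dist, edist_dist, ← ENNReal.ofReal_mul hc, Real.dist_eq]
  exact ENNReal.ofReal_le_ofReal (h x y)

theorem le_L {f : M → ℝ} {r : ℝ} (x y : M) (hxy : 0 < dist x y)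
    (h : r * dist x y ≤ |f x - f y|) : ENNReal.ofReal r ≤ L f := by
  refine le_trans ?_ (le_iSup₂ (f := fun x y => edist (f x) (f y) / edist x y) x y)
  rw [edist_dist, edist_dist, ← ENNReal.ofReal_div_of_pos hxy, Real.dist_eq]
  exact ENNReal.ofReal_le_ofReal ((le_div_iff₀ hxy).mpr h)

theorem lip_of_L_lt_top {f : M → ℝ} (h : L f < ⊤) :
    ∀ x y, |f x - f y| ≤ (L f).toReal * dist x y := by
  intro x y
  rcases eq_or_ne x y with rfl | hxy
  · simp
  have h1 : edist (f x) (f y) / edist x y ≤ L f :=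
    le_iSup₂ (f := fun x y => edist (f x) (f y) / edist x y) x y
  have h2 : edist (f x) (f y) ≤ L f * edist x y :=
    (ENNReal.div_le_iff (by simpa using hxy) (edist_ne_top _ _)).mp h1
  have h3 := ENNReal.toReal_mono (ENNReal.mul_ne_top h.ne (edist_ne_top _ _)) h2
  rwa [ENNReal.toReal_mul, edist_dist, edist_dist, ENNReal.toReal_ofReal dist_nonneg,
    ENNReal.toReal_ofReal dist_nonneg, Real.dist_eq] at h3

end LipConst

/-- The increasing homeomorphisms of the line commuting with the translation by one. -/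
def G : Subgroup (ℝ ≃o ℝ) where
  carrier := {g | ∀ x, g (x + 1) = g x + 1}
  one_mem' := by intro x; rfl
  mul_mem' := by
    intro g h hg hh x
    show g (h (x + 1)) = g (h x) + 1
    rw [hh, hg]
  inv_mem' := by
    intro g hg x
    apply g.injective
    rw [RelIso.apply_inv_self, hg, RelIso.apply_inv_self]

instance : CoeFun G (fun _ => ℝ → ℝ) := ⟨fun g => (g : ℝ ≃o ℝ)⟩

theorem mul_app (g h : G) (x : ℝ) : (g * h) x = g (h x) := rfl

theorem one_app (x : ℝ) : (1 : G) x = x := rfl

theorem inv_app_self (g : G) (x : ℝ) : g⁻¹ (g x) = x :=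
  RelIso.inv_apply_self _ _

theorem app_inv_self (g : G) (x : ℝ) : g (g⁻¹ x) = x :=
  RelIso.apply_inv_self _ _

theorem mono (g : G) : Monotone g := (g : ℝ ≃o ℝ).monotone

theorem add_nat (g : G) (x : ℝ) (n : ℕ) : g (x + n) = g x + n := by
  induction n with
  | zero => simp
  | succ n ih =>
    push_cast
    rw [← add_assoc, g.2 (x + n), ih, add_assoc]

theorem add_int (g : G) (x : ℝ) (n : ℤ) : g (x + n) = g x + n := by
  obtain ⟨m, rfl | rfl⟩ := n.eq_nat_or_neg
  · exact_mod_cast add_nat g x m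
  · have := add_nat g (x + ((-(m:ℤ) : ℤ) : ℝ)) m
    push_cast at this ⊢
    rw [neg_add_cancel_right] at this
    linarith

/-- The basic estimate. -/
theorem basic (g : G) (t : ℝ) : |g t - g 0 - t| ≤ 1 := by
  have h1 : g t ≤ g 0 + ⌈t⌉ := by
    have := mono g (Int.le_ceil t)
    have h2 := add_int g 0 ⌈t⌉
    rw [zero_add] at h2
    rwa [h2] at this
  have h2 : g 0 + ⌊t⌋ ≤ g t := by
    have := mono g (Int.floor_le t)
    have h2 := add_int g 0 ⌊t⌋
    rw [zero_add] at h2
    rwa [h2] at this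
  have h3 := Int.ceil_lt_add_one t
  have h4 := Int.sub_one_lt_floor t
  rw [abs_le]
  constructor <;> linarith

/-- The length function, for a constant `C`. -/
noncomputable def len (C : ℝ) (k : G) : ℝ :=
  open Classical in if k = 1 then 0 else max |k 0| |k⁻¹ 0| + C

theorem len_one (C : ℝ) : len C 1 = 0 := by simp [len]

theorem len_inv (C : ℝ) (k : G) : len C k⁻¹ = len C k := by
  unfold len
  by_cases hk : k = 1
  · simp [hk]
  · rw [if_neg hk, if_neg (by simpa using hk), inv_inv, max_comm]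

theorem len_ne {C : ℝ} {k : G} (hk : k ≠ 1) : len C k = max |k 0| |k⁻¹ 0| + C := by
  simp [len, hk]

theorem len_nonneg {C : ℝ} (hC : 1 ≤ C) (k : G) : 0 ≤ len C k := by
  by_cases hk : k = 1
  · rw [hk, len_one]
  · rw [len_ne hk]
    have : 0 ≤ max |k 0| |k⁻¹ 0| := (abs_nonneg _).trans (le_max_left _ _)
    linarith

theorem le_len {C : ℝ} {k : G} (hk : k ≠ 1) : |k 0| + C ≤ len C k := by
  rw [len_ne hk]
  have := le_max_left |k 0| |k⁻¹ 0|
  linarith

theorem abs_inv_le (k : G) : |k⁻¹ 0| ≤ |k 0| + 1 := by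
  have h := basic k⁻¹ (k 0)
  rw [inv_app_self] at h
  have h1 : k⁻¹ 0 = -(0 - k⁻¹ 0 - k 0) - k 0 := by ring
  calc |k⁻¹ 0| = |-(0 - k⁻¹ 0 - k 0) - k 0| := by rw [← h1]
    _ ≤ |-(0 - k⁻¹ 0 - k 0)| + |k 0| := abs_sub _ _
    _ ≤ _ := by rw [abs_neg]; linarith

theorem len_le {C : ℝ} (hC : 1 ≤ C) (k : G) : len C k ≤ |k 0| + 1 + C := by
  by_cases hk : k = 1
  · rw [hk, len_one]; positivity
  · rw [len_ne hk]
    have := abs_inv_le k
    have h2 : max |k 0| |k⁻¹ 0| ≤ |k 0| + 1 := max_le (by linarith) this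
    linarith

theorem abs_mul_le (k l : G) : |(k * l) 0| ≤ |k 0| + |l 0| + 1 := by
  have h := basic k (l 0)
  rw [mul_app]
  have h1 : k (l 0) = (k (l 0) - k 0 - l 0) + k 0 + l 0 := by ring
  calc |k (l 0)| = |(k (l 0) - k 0 - l 0) + k 0 + l 0| := by rw [← h1]
    _ ≤ |k (l 0) - k 0 - l 0| + |k 0| + |l 0| := abs_add_three _ _ _
    _ ≤ _ := by linarith

theorem len_mul {C : ℝ} (hC : 1 ≤ C) (k l : G) : len C (k * l) ≤ len C k + len C l := by
  by_cases hk : k = 1
  · subst hk; rw [one_mul, len_one, zero_add]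
  by_cases hl : l = 1
  · subst hl; rw [mul_one, len_one, add_zero]
  by_cases hkl : k * l = 1
  · rw [hkl, len_one]; exact add_nonneg (len_nonneg hC k) (len_nonneg hC l)
  rw [len_ne hkl, len_ne hk, len_ne hl]
  have h1 := abs_mul_le k l
  have h2 : |(k * l)⁻¹ 0| ≤ |k⁻¹ 0| + |l⁻¹ 0| + 1 := by
    rw [mul_inv_rev]
    have := abs_mul_le l⁻¹ k⁻¹
    linarith
  have h3 := le_max_left |k 0| |k⁻¹ 0|
  have h4 := le_max_right |k 0| |k⁻¹ 0|
  have h5 := le_max_left |l 0| |l⁻¹ 0|
  have h6 := le_max_right |l 0| |l⁻¹ 0|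
  have h7 : max |(k * l) 0| |(k * l)⁻¹ 0| ≤ max |k 0| |k⁻¹ 0| + max |l 0| |l⁻¹ 0| + 1 :=
    max_le (by linarith) (by linarith)
  linarith

/-- The left invariant metric. -/
@[reducible] noncomputable def metric (C : ℝ) (hC : 1 ≤ C) : MetricSpace G where
  dist x y := len C (x⁻¹ * y)
  dist_self x := by simp [len_one]
  dist_comm x y := by
    rw [← len_inv C (x⁻¹ * y)]
    simp
  dist_triangle x y z := by
    have : x⁻¹ * z = (x⁻¹ * y) * (y⁻¹ * z) := by group
    show len C (x⁻¹ * z) ≤ _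
    rw [this]
    exact len_mul hC _ _
  eq_of_dist_eq_zero := by
    intro x y h
    by_contra hxy
    have hne : x⁻¹ * y ≠ 1 := by
      intro h1
      exact hxy (inv_mul_eq_one.mp h1)
    have h1 := le_len (C := C) hne
    have h2 : len C (x⁻¹ * y) = 0 := h
    have h3 := abs_nonneg ((x⁻¹ * y) 0)
    linarith

/-- The distance of a real number to the integers. -/
noncomputable def nn (x : ℝ) : ℝ := ‖(x : UnitAddCircle)‖

theorem nn_lip (x y : ℝ) : |nn x - nn y| ≤ |x - y| := by
  refine (abs_norm_sub_norm_le _ _).trans ?_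
  have h : ((x : UnitAddCircle) - (y : UnitAddCircle)) = ((x - y : ℝ) : UnitAddCircle) := by
    simp
  rw [h, UnitAddCircle.norm_eq]
  exact round_le (x - y) 0 |>.trans (by simp)

theorem nn_add_one (x : ℝ) : nn (x + 1) = nn x := by
  unfold nn
  congr 1
  have := AddCircle.coe_add_period (1:ℝ) x
  exact this

theorem nn_nonneg (x : ℝ) : 0 ≤ nn x := norm_nonneg _

theorem nn_le (x : ℝ) : nn x ≤ 1/2 := by
  have := AddCircle.norm_le_half_period (p := (1:ℝ)) (x := (x : AddCircle (1:ℝ))) one_ne_zero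
  simpa [nn] using this

theorem nn_zero : nn 0 = 0 := by simp [nn]

theorem nn_half : nn (1/2) = 1/2 := by
  have := AddCircle.norm_half_period_eq (p := (1:ℝ))
  simpa [nn] using this

theorem nn_cont : Continuous nn := by
  have : LipschitzWith 1 nn := LipschitzWith.of_dist_le_mul fun x y => by
    rw [Real.dist_eq, Real.dist_eq]; simpa using nn_lip x y
  exact this.continuous

/-- An element of `G` from a perturbation of the identity by a `1/2`-Lipschitz periodic function. -/
theorem exists_elem (u : ℝ → ℝ) (hu : ∀ x y, |u x - u y| ≤ 1/2 * |x - y|)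
    (hp : ∀ x, u (x + 1) = u x) (hb0 : ∀ x, 0 ≤ u x) (hb1 : ∀ x, u x ≤ 1) :
    ∃ g : G, ∀ x, g x = x + u x := by
  have hmono : StrictMono (fun x => x + u x) := by
    intro x y hxy
    have h1 := hu x y
    rw [abs_sub_comm x y, abs_of_pos (sub_pos.mpr hxy)] at h1
    have h2 := le_abs_self (u x - u y)
    show x + u x < y + u y
    linarith
  have hucont : Continuous u := by
    have : LipschitzWith 1 u := LipschitzWith.of_dist_le_mul fun x y => by
      rw [Real.dist_eq, Real.dist_eq]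
      have := hu x y
      have h0 := abs_nonneg (x - y)
      simp only [NNReal.coe_one, one_mul]
      linarith
    exact this.continuous
  have hsurj : Function.Surjective (fun x => x + u x) := by
    refine Continuous.surjective (continuous_id.add hucont) ?_ ?_
    · exact tendsto_atTop_mono (fun x => by have := hb0 x; show x ≤ x + u x; linarith) tendsto_id
    · have h1 : Tendsto (fun x : ℝ => x + 1) atBot atBot :=
        tendsto_atBot_add_const_right _ _ tendsto_id
      have h2 : ∀ x : ℝ, x + u x ≤ x + 1 := fun x => by have := hb1 x; linarith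
      exact tendsto_atBot_mono h2 h1
  refine ⟨⟨StrictMono.orderIsoOfSurjective _ hmono hsurj, ?_⟩, fun x => rfl⟩
  intro x
  show (x + 1) + u (x + 1) = (x + u x) + 1
  rw [hp]; ring

theorem pow_fixed (k : G) (p : ℝ) (hp : k p = p) (n : ℕ) : (k ^ n) p = p := by
  induction n with
  | zero => rfl
  | succ n ih => rw [pow_succ, mul_app, hp, ih]

theorem pow_zero_le (k : G) (p : ℝ) (hp : k p = p) (n : ℕ) : |(k ^ n) 0| ≤ 1 := by
  have := basic (k ^ n) p
  rw [pow_fixed k p hp n] at this
  have h : p - (k ^ n) 0 - p = -((k ^ n) 0) := by ring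
  rwa [h, abs_neg] at this

theorem pow_ge (w : G) (c : ℝ) (hw : ∀ x, x + c ≤ w x) (n : ℕ) : n * c ≤ (w ^ n) 0 := by
  induction n with
  | zero => simp
  | succ n ih =>
    rw [pow_succ', mul_app]
    have h1 := hw ((w ^ n) 0)
    have h2 : ((n + 1 : ℕ) : ℝ) = (n : ℝ) + 1 := by push_cast; ring
    rw [h2]
    linarith

/-- For all `δ < 1` and `ε > 0` the statement of the question fails. -/
theorem result : ∀ δ ε : ℝ≥0, δ < 1 → 0 < ε → ¬ Approximation δ ε := by
  intro δ ε hδ hε happ
  -- the constant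
  obtain ⟨C, hC1, hCε⟩ : ∃ C : ℝ, 1 ≤ C ∧ 2 ≤ (ε : ℝ) * C := by
    refine ⟨max 1 (2 / ε), le_max_left _ _, ?_⟩
    have hε' : (0:ℝ) < ε := hε
    have := le_max_right (1:ℝ) (2 / ε)
    calc (2:ℝ) = ε * (2 / ε) := by field_simp
      _ ≤ _ := mul_le_mul_of_nonneg_left this hε'.le
  let _ : MetricSpace G := metric C hC1
  have hdist : ∀ x y : G, dist x y = len C (x⁻¹ * y) := fun _ _ => rfl
  -- isometric action
  have hiso : ∀ g : G, Isometry (fun x : G => g • x) := by
    intro g
    refine Isometry.of_dist_eq fun x y => ?_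
    rw [hdist, hdist]
    congr 1
    simp only [smul_eq_mul, mul_inv_rev]
    group
  -- the function
  let f : G → ℝ := fun g => g 0
  have hf1 : f 1 = 0 := rfl
  have hdiff : ∀ x y : G, |f x - f y| ≤ |(x⁻¹ * y) 0| + 1 := by
    intro x y
    have h := basic x ((x⁻¹ * y) 0)
    rw [← mul_app, mul_inv_cancel_left] at h
    have h1 : f x - f y = -(y 0 - x 0 - (x⁻¹ * y) 0) - (x⁻¹ * y) 0 := by simp only [f]; ring
    rw [h1]
    calc |-(y 0 - x 0 - (x⁻¹ * y) 0) - (x⁻¹ * y) 0|
        ≤ |-(y 0 - x 0 - (x⁻¹ * y) 0)| + |(x⁻¹ * y) 0| := abs_sub _ _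
      _ ≤ _ := by rw [abs_neg]; linarith
  have hLle : L f ≤ 1 := by
    rw [← ENNReal.ofReal_one]
    refine L_le zero_le_one fun x y => ?_
    rcases eq_or_ne x y with rfl | hxy
    · simp
    have hne : x⁻¹ * y ≠ 1 := fun h1 => hxy (inv_mul_eq_one.mp h1)
    have h1 := le_len (C := C) hne
    have h2 := hdiff x y
    rw [one_mul, hdist]
    linarith
  -- lower bounds for Lipschitz constants from sequences
  have hlow : ∀ (F : G → ℝ) (w : ℕ → G) (a : ℕ → ℝ), F 1 = 0 → (∀ n, F (w n) = a n) →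
      (∀ n, (w n) 0 = a n) → Tendsto a atTop atTop → 1 ≤ L F := by
    intro F w a hF1 hFw hw ha
    have h1 : Tendsto (fun n => ENNReal.ofReal (1 - (1 + C) / (a n + (1 + C)))) atTop
        (𝓝 (ENNReal.ofReal (1 - 0))) := by
      refine (ENNReal.continuous_ofReal.tendsto _).comp ?_
      refine tendsto_const_nhds.sub ?_
      exact tendsto_const_nhds.div_atTop (tendsto_atTop_add_const_right _ _ ha)
    rw [sub_zero, ENNReal.ofReal_one] at h1
    refine le_of_tendsto h1 ?_
    filter_upwards [ha.eventually_gt_atTop 0] with n hn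
    have hne : w n ≠ 1 := by
      intro h
      have := hw n
      rw [h, one_app] at this
      linarith
    have hd : dist (w n) 1 ≤ a n + (1 + C) := by
      rw [hdist, mul_one, len_inv]
      have := len_le hC1 (w n)
      rw [hw n, abs_of_pos hn] at this
      linarith
    have hd0 : 0 < dist (w n) 1 := dist_pos.mpr hne
    refine le_L (w n) 1 hd0 ?_
    rw [hFw, hF1, sub_zero, abs_of_pos hn]
    have hpos : 0 < a n + (1 + C) := by linarith
    have h2 : 1 - (1 + C) / (a n + (1 + C)) = a n / (a n + (1 + C)) := by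
      field_simp
      ring
    rw [h2]
    have h3 : 0 ≤ a n / (a n + (1 + C)) := by positivity
    calc a n / (a n + (1 + C)) * dist (w n) 1 ≤ a n / (a n + (1 + C)) * (a n + (1 + C)) :=
          mul_le_mul_of_nonneg_left hd h3
      _ = a n := by field_simp
  -- translations
  obtain ⟨t, ht⟩ := exists_elem (fun _ => 1) (by intro x y; simp) (by simp) (by simp) (by simp)
  have htpow : ∀ n : ℕ, (t ^ n) 0 = n := by
    intro n
    induction n with
    | zero => simp
    | succ n ih =>
      rw [pow_succ', mul_app, ih, ht]; push_cast; ring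
  have hL1 : L f = 1 :=
    le_antisymm hLle (hlow f (fun n => t ^ n) (fun n => (n:ℝ)) hf1 (fun n => htpow n)
      (fun n => htpow n) tendsto_natCast_atTop_atTop)
  -- almost invariance
  have hinv : ∀ g : G, L (act (1 : G) g f - f) ≤ ε := by
    intro g
    have hε2 : (ε : ℝ≥0∞) = ENNReal.ofReal (ε : ℝ) := by simp
    rw [hε2]
    refine L_le ε.2 fun x y => ?_
    rcases eq_or_ne x y with rfl | hxy
    · simp
    have hne : x⁻¹ * y ≠ 1 := fun h1 => hxy (inv_mul_eq_one.mp h1)
    have h1 := le_len (C := C) hne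
    have h2 := basic g⁻¹ (x 0)
    have h3 := basic g⁻¹ (y 0)
    have h4 : (act (1 : G) g f - f) x - (act (1 : G) g f - f) y =
        (g⁻¹ (x 0) - g⁻¹ 0 - x 0) - (g⁻¹ (y 0) - g⁻¹ 0 - y 0) := by
      simp only [act, Pi.sub_apply, smul_eq_mul, f, mul_app]
      ring
    rw [h4, hdist]
    have h5 := abs_sub (g⁻¹ (x 0) - g⁻¹ 0 - x 0) (g⁻¹ (y 0) - g⁻¹ 0 - y 0)
    have h6 : (ε : ℝ) * C ≤ ε * len C (x⁻¹ * y) := by
      refine mul_le_mul_of_nonneg_left ?_ ε.2
      have := abs_nonneg ((x⁻¹ * y) 0)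
      linarith
    linarith
  obtain ⟨f', hf'1, hf'L, hf'inv, hf'δ⟩ := happ G 1 G hiso f hf1 hL1 hinv
  -- f' is a homomorphism
  have hhom : ∀ g x : G, f' (g * x) = f' g + f' x := by
    intro g x
    have h := congrFun (hf'inv g⁻¹) x
    simp only [act, inv_inv, smul_eq_mul, mul_one] at h
    linarith
  have hpow : ∀ (g : G) (n : ℕ), f' (g ^ n) = n * f' g := by
    intro g n
    induction n with
    | zero => simpa using hf'1
    | succ n ih => rw [pow_succ', hhom, ih]; push_cast; ring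
  have hfix : ∀ (k : G) (p : ℝ), k p = p → f' k = 0 := by
    intro k p hp
    by_contra hne
    have hpos : 0 < |f' k| := abs_pos.mpr hne
    have hb : ∀ n : ℕ, n * |f' k| ≤ (L f').toReal * (2 + C) := by
      intro n
      have h1 := lip_of_L_lt_top hf'L (k ^ n) 1
      rw [hf'1, sub_zero, hpow, abs_mul, Nat.abs_cast] at h1
      refine h1.trans (mul_le_mul_of_nonneg_left ?_ ENNReal.toReal_nonneg)
      rw [hdist, mul_one, len_inv]
      have h2 := len_le hC1 (k ^ n)
      have h3 := pow_zero_le k p hp n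
      linarith
    obtain ⟨n, hn⟩ := exists_nat_gt ((L f').toReal * (2 + C) / |f' k|)
    have := hb n
    rw [div_lt_iff₀ hpos] at hn
    linarith
  -- two elements with fixed points
  obtain ⟨φ, hφ⟩ := exists_elem (fun x => 1/2 * nn x)
    (by
      intro x y
      rw [← mul_sub, abs_mul]
      have := nn_lip x y
      rw [abs_of_pos (by norm_num : (0:ℝ) < 1/2)]
      linarith)
    (by intro x; simp only [nn_add_one])
    (by intro x; have := nn_nonneg x; linarith)
    (by intro x; have := nn_le x; linarith)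
  obtain ⟨ψ, hψ⟩ := exists_elem (fun x => 1/2 * (1/2 - nn x))
    (by
      intro x y
      have h1 : 1/2 * (1/2 - nn x) - 1/2 * (1/2 - nn y) = 1/2 * -(nn x - nn y) := by ring
      rw [h1, abs_mul, abs_neg]
      have := nn_lip x y
      rw [abs_of_pos (by norm_num : (0:ℝ) < 1/2)]
      linarith)
    (by intro x; simp only [nn_add_one])
    (by intro x; have := nn_le x; linarith)
    (by intro x; have := nn_nonneg x; linarith)
  have hφ0 : f' φ = 0 := hfix φ 0 (by rw [hφ, nn_zero]; ring)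
  have hψ0 : f' ψ = 0 := hfix ψ (1/2) (by rw [hψ, nn_half]; ring)
  have hw : ∀ x, x + 1/8 ≤ (ψ * φ) x := by
    intro x
    rw [mul_app, hψ, hφ]
    have h1 := nn_lip (x + 1/2 * nn x) x
    have h2 : x + 1/2 * nn x - x = 1/2 * nn x := by ring
    rw [h2, abs_of_nonneg (a := 1/2 * nn x) (by have := nn_nonneg x; linarith)] at h1
    have h3 := le_abs_self (nn (x + 1/2 * nn x) - nn x)
    have h4 := nn_le x
    linarith
  have hw0 : f' (ψ * φ) = 0 := by rw [hhom, hφ0, hψ0, add_zero]
  have htend : Tendsto (fun n : ℕ => ((ψ * φ) ^ n) 0) atTop atTop := by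
    refine tendsto_atTop_mono (fun n => pow_ge (ψ * φ) (1/8) hw n) ?_
    exact Tendsto.atTop_mul_const (by norm_num) tendsto_natCast_atTop_atTop
  have hfinal := hlow (f - f') (fun n => (ψ * φ) ^ n) (fun n => ((ψ * φ) ^ n) 0)
    (by simp [hf1, hf'1]) (fun n => by
      have : f' ((ψ * φ) ^ n) = 0 := by rw [hpow, hw0, mul_zero]
      simp only [Pi.sub_apply, this, sub_zero, f]) (fun n => rfl) htend
  have hcontra : (1:ℝ≥0∞) ≤ δ := hfinal.trans hf'δ
  have : (1:ℝ≥0) ≤ δ := by exact_mod_cast hcontra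
  exact absurd hδ (not_lt.mpr this)

end Pool.Agent.Results.MP_35e3b8_an.RotationNumber
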